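import Pool.Agent.W580.SH.StmA
set_option autoImplicit false

/-!
# Project SH: the counting theorem for rows which are not bad
-/

namespace Pool.Agent.W571.SH

open Finset Pool.Agent.W580.SH

/-- the counting theorem -/
theorem main (hK : S_KLE) (hB : S_BASIS) (hH : S_HALF) (hS : S_STARB) (h1 : S_AC1)
    (h2 : S_AC2) : S_AMAIN := by
  intro R _ _ I D t hsupp hneg hhalf hstar hbad
  obtain ⟨k, ρ, b, hb, hne, hspan, hmax⟩ := hB R D
  have hk : k ≤ I.card := hK R I k ρ b (fun j r hr => hsupp _ (hb j) r hr) hne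
  have hle : |mn ρ b| ≤ 1 := by
    rcases Nat.eq_zero_or_pos k with h0 | h0
    · subst h0
      unfold mn
      rw [Matrix.det_fin_zero, abs_one]
    · have h3 := hS R (D : Set (R → ℝ)) hstar k ρ b (b ⟨0, h0⟩) (Pi.single ⟨0, h0⟩ 1) hb
        (hb _) (by
          intro a
          rw [Finset.sum_eq_single (⟨0, h0⟩ : Fin k)]
          · rw [Pi.single_eq_same, one_mul]
          · intro l _ hl
            rw [Pi.single_eq_of_ne hl, zero_mul]
          · intro h
            exact absurd (Finset.mem_univ _) h)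
      have h4 : ∑ j : Fin k, |(Pi.single (⟨0, h0⟩ : Fin k) (1 : ℝ) : Fin k → ℝ) j| = 1 := by
        rw [Finset.sum_eq_single (⟨0, h0⟩ : Fin k)]
        · rw [Pi.single_eq_same, abs_one]
        · intro l _ hl
          rw [Pi.single_eq_of_ne hl, abs_zero]
        · intro h
          exact absurd (Finset.mem_univ _) h
      rw [h4] at h3
      linarith
  obtain ⟨n, hn⟩ := hH R (D : Set (R → ℝ)) t hhalf k ρ b hb
  have hn0 : n ≠ 0 := by
    rintro rfl
    apply hne
    have : 2 * mn ρ b = 0 := by
      rw [hn]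
      simp
    linarith
  have hna : |(n : ℝ)| ≤ 2 := by
    rw [← hn, abs_mul, abs_of_pos (two_pos : (0 : ℝ) < 2)]
    linarith
  have hna' : |n| ≤ 2 := by
    have : ((|n| : ℤ) : ℝ) ≤ ((2 : ℤ) : ℝ) := by
      rw [Int.cast_abs]
      exact_mod_cast hna
    exact_mod_cast this
  have hval : |mn ρ b| = |(n : ℝ)| / 2 := by
    rw [← hn, abs_mul, abs_of_pos (two_pos : (0 : ℝ) < 2)]
    ring
  have hcase : |n| = 1 ∨ |n| = 2 := by
    have : 0 < |n| := abs_pos.2 hn0
    omega
  have hcard : D.card ≤ 2 * k + 2 := by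
    rcases hcase with h | h
    · have h5 : |mn ρ b| = 1 / 2 := by
        rw [hval, ← Int.cast_abs, h]
        norm_num
      refine h2 R D t hneg hhalf hstar hbad k ρ b hb h5 ?_ hspan
      intro b' hb'
      rw [← h5]
      exact hmax ρ b' hb'
    · have h5 : |mn ρ b| = 1 := by
        rw [hval, ← Int.cast_abs, h]
        norm_num
      exact h1 R D t hhalf hstar k ρ b hb h5 hspan
  omega

end Pool.Agent.W571.SH
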