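import Pool.Agent.W580.SH.StmA
set_option autoImplicit false

/-!
# Project SH: minors of linear combinations and Cramer's rule
-/

namespace Pool.Agent.W571.SH

open Finset Pool.Agent.W580.SH

/-- minors of linear combinations -/
theorem lin : S_LIN := by
  intro R k r c U
  unfold mn
  rw [← Matrix.det_mul]
  congr 1
  ext x b
  rw [Matrix.mul_apply]
  simp only [Matrix.of_apply, Finset.sum_apply, Pi.smul_apply, smul_eq_mul]
  exact Finset.sum_congr rfl (fun a _ => mul_comm _ _)

theorem mn_upd {R : Type} {k : ℕ} (ρ : Fin k → R) (c : Fin k → (R → ℝ)) (j : Fin k)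
    (y : R → ℝ) : mn ρ (Function.update c j y) =
      ((Matrix.of fun a b => c b (ρ a) : Matrix (Fin k) (Fin k) ℝ).updateCol j
        (fun a => y (ρ a))).det := by
  unfold mn
  congr 1
  ext a b
  rw [Matrix.updateCol_apply]
  by_cases h : b = j
  · subst h
    simp
  · simp [h]

theorem cram1 {R : Type} {k : ℕ} (ρ : Fin k → R) (b : Fin k → (R → ℝ)) (y : R → ℝ)
    (β : Fin k → ℝ) (j : Fin k) (h : ∀ a, y (ρ a) = ∑ i, β i * b i (ρ a)) :
    mn ρ (Function.update b j y) = β j * mn ρ b := by
  rw [mn_upd]
  have h1 : (fun a => y (ρ a)) = fun a => ∑ i, β i •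
      (Matrix.of fun a b' => b b' (ρ a) : Matrix (Fin k) (Fin k) ℝ) a i := by
    funext a
    exact h a
  rw [h1, Matrix.det_updateCol_sum, smul_eq_mul]
  rfl

theorem mn_add {R : Type} {k : ℕ} (ρ : Fin k → R) (c : Fin k → (R → ℝ)) (j : Fin k)
    (y z : R → ℝ) : mn ρ (Function.update c j (y + z)) =
      mn ρ (Function.update c j y) + mn ρ (Function.update c j z) := by
  rw [mn_upd, mn_upd, mn_upd, ← Matrix.det_updateCol_add]
  rfl

theorem cram2_ne {R : Type} {k : ℕ} (ρ : Fin k → R) (b : Fin k → (R → ℝ)) (y y' : R → ℝ)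
    (β β' : Fin k → ℝ) (i j : Fin k) (hij : i ≠ j)
    (h : ∀ a, y (ρ a) = ∑ i, β i * b i (ρ a))
    (h' : ∀ a, y' (ρ a) = ∑ i, β' i * b i (ρ a)) (hne : β i ≠ 0) :
    mn ρ (Function.update (Function.update b i y) j y') =
      (β i * β' j - β j * β' i) * mn ρ b := by
  set γ : Fin k → ℝ := fun l => if l = i then β' i / β i else β' l - β' i / β i * β l with hγ
  have h1 : ∀ a, y' (ρ a) = ∑ l, γ l * (Function.update b i y) l (ρ a) := by
    intro a
    have h2 : ∑ l, (γ l * (Function.update b i y) l (ρ a) -
        (β' l - β' i / β i * β l) * b l (ρ a)) = β' i / β i * y (ρ a) := by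
      rw [Finset.sum_eq_single i]
      · rw [hγ, Function.update_self]
        simp only [if_true]
        rw [div_mul_cancel₀ _ hne]
        ring
      · intro l _ hl
        rw [hγ, Function.update_of_ne hl]
        simp only [if_neg hl]
        ring
      · intro hi
        exact absurd (Finset.mem_univ i) hi
    rw [Finset.sum_sub_distrib, sub_eq_iff_eq_add] at h2
    rw [h2, h', h, Finset.mul_sum, ← Finset.sum_add_distrib]
    refine Finset.sum_congr rfl (fun l _ => ?_)
    ring
  rw [cram1 ρ _ y' γ j h1, cram1 ρ b y β i h, hγ]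
  simp only [if_neg hij.symm]
  field_simp

/-- Cramer's rule -/
theorem cram : S_CRAM := by
  refine ⟨fun R k ρ b y β j h => cram1 ρ b y β j h, ?_⟩
  intro R k ρ b y y' β β' i j hij h h'
  by_cases hne : β i = 0
  · have h1 : ∀ a, (y + b i) (ρ a) = ∑ l, (β l + if l = i then 1 else 0) * b l (ρ a) := by
      intro a
      simp only [Pi.add_apply, add_mul, Finset.sum_add_distrib, ite_mul, one_mul, zero_mul,
        Finset.sum_ite_eq', Finset.mem_univ, if_true]
      rw [h a]
    have h2 := cram2_ne ρ b (y + b i) y' (fun l => β l + if l = i then 1 else 0) β' i j hij h1 h'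
      (by simp [hne])
    rw [Function.update_comm hij, mn_add, ← Function.update_comm hij, ← Function.update_comm hij,
      Function.update_eq_self, cram1 ρ b y' β' j h'] at h2
    simp only [if_true, if_neg hij.symm, add_zero] at h2
    linear_combination h2
  · exact cram2_ne ρ b y y' β β' i j hij h h' hne

end Pool.Agent.W571.SH
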